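import Pool.Agent.Helper8.HL.BL1

/-!
# The energy is invariant under the crystal operators
-/

namespace Pool.Agent.Helper8.HL

open Finset MvPolynomial
open Pool.Agent.Helper32.HG Pool.Agent.Helper7.HL

theorem LL_length (N : ℕ) (b : List (Finset ℕ)) : (LL N b).length = b.length := by
  induction b with
  | nil => rfl
  | cons c b ih => simp [LL, ih]

theorem LL_subset (N : ℕ) (c : Finset ℕ) (b : List (Finset ℕ)) :
    ∀ x ∈ LL N (c :: b), x ⊆ c := by
  intro x hx
  rw [LL, List.mem_cons] at hx
  rcases hx with rfl | hx
  · exact Subset.refl _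
  · rw [List.mem_map] at hx
    obtain ⟨d, _, rfl⟩ := hx
    exact sdiff_subset

theorem tl_length {N : ℕ} {cs : List ℕ} {b : List (Finset ℕ)} (h : b ∈ tl N cs) :
    b.length = cs.length := (mem_tl_iff.mp h).length_eq

theorem LL_mem {N : ℕ} {k : ℕ} {cs : List ℕ} {b : List (Finset ℕ)} (hd : Dec (k :: cs))
    (hb : b ∈ tl N cs) : ∀ x ∈ LL N b, x ⊆ range N ∧ x.card ≤ k := by
  intro x hx
  cases cs with
  | nil =>
    simp [tl] at hb
    subst hb
    simp [LL] at hx
  | cons k' cs =>
    cases b with
    | nil => simp [LL] at hx
    | cons c b =>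
      rw [mem_tl_cons] at hb
      have h := LL_subset N c b x hx
      refine ⟨h.trans hb.1.1, (card_le_card h).trans ?_⟩
      rw [hb.1.2]
      exact (List.pairwise_cons.mp hd).1 k' (by simp)

theorem Hen_fo1 (hBW4 : ST_BW4) {N i : ℕ} {c d : Finset ℕ} (hi : i + 1 < N) (hc : c ⊆ range N)
    (hd : d ⊆ range N) (hcd : d.card ≤ c.card) (h1 : p1 i d = 1) (h2 : e1 i c = 0) :
    Hen N c (fcol i d) = Hen N c d := by
  have he : e1 i d = 0 := by
    rcases p1_cases i d with h | h | h <;> omega
  obtain ⟨-, -, h⟩ := hBW4 N i c d hi hc hd hcd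
  have hphi : phi i [d] = 1 := by
    rw [phi_cons]; simp [phi, h1]
  have hphi2 : 0 < phi i [c, d] := by
    rw [phi_cons, hphi]; omega
  refine (h hphi2 c (fcol i d) ?_).2
  rw [fo_cons, hphi, if_pos (by omega), fo_cons, if_neg (by simp [phi])]

theorem Hen_fo2 (hBW4 : ST_BW4) {N i : ℕ} {c d : Finset ℕ} (hi : i + 1 < N) (hc : c ⊆ range N)
    (hd : d ⊆ range N) (hcd : d.card ≤ c.card) (h1 : p1 i d = 0) (h2 : p1 i c = 1) :
    Hen N (fcol i c) d = Hen N c d := by
  obtain ⟨-, -, h⟩ := hBW4 N i c d hi hc hd hcd
  have hphi : phi i [d] = 0 := by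
    rw [phi_cons]; simp [phi, h1]
  have hphi2 : 0 < phi i [c, d] := by
    rw [phi_cons]; omega
  refine (h hphi2 (fcol i c) d ?_).2
  rw [fo_cons, hphi, if_neg (by omega)]

theorem DD_fo (hBW4 : ST_BW4) (hBL1 : ST_BL1) (hBL2 : ST_BL2) (N i : ℕ) (hi : i + 1 < N) :
    ∀ (cs : List ℕ) (b : List (Finset ℕ)), Dec cs → b ∈ tl N cs → 0 < phi i b →
      DD N (fo i b) = DD N b := by
  intro cs
  induction cs with
  | nil =>
    intro b _ hb h
    simp [tl] at hb
    subst hb
    simp [phi] at h
  | cons k cs ih =>
    intro b hdec hb hphi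
    cases b with
    | nil => simp [phi] at hphi
    | cons c b =>
      have hb' := hb
      rw [mem_tl_cons] at hb'
      obtain ⟨⟨hc, hck⟩, hb1⟩ := hb'
      have hdec' : Dec cs := (List.pairwise_cons.mp hdec).2
      have hLL := LL_mem hdec hb1
      rw [fo_cons]
      by_cases hlt : e1 i c < phi i b
      · rw [if_pos hlt, DD, DD, ih b hdec' hb1 (by omega)]
        have hfb : fo i b ∈ tl N cs := (((hBL1 i b).2.1 (by omega)).2.2.2.2.2.2) N cs hi hb1
        congr 2
        apply List.ext_getElem?
        intro r
        rw [List.getElem?_map, List.getElem?_map]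
        by_cases hr : r < cs.length
        · obtain ⟨m1, m2, m3, m4, m5⟩ := hBL2 N i r cs b hi hdec' hb1 hr
          obtain ⟨n1, -⟩ := hBL2 N i r cs (fo i b) hi hdec' hfb hr
          rw [← n1, m4 (by omega)]
          have hr' : r < (LL N b).length := by rw [LL_length, tl_length hb1]; exact hr
          have hget : (LL N b)[r]? = some ((LL N b)[r]) := List.getElem?_eq_getElem hr'
          rw [hget] at m1 ⊢
          have hmem := hLL _ (List.getElem_mem hr')
          generalize (LL N b)[r] = d at m1 hmem ⊢
          cases hmv : mv N r b with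
          | nil => rw [hmv] at m1; simp at m1
          | cons d' z =>
            rw [hmv] at m1 m2
            simp only [List.head?_cons, Option.some.injEq] at m1
            subst m1
            rw [fo_cons]
            by_cases hz : e1 i d' < phi i z
            · rw [if_pos hz]; rfl
            · rw [if_neg hz]
              rw [phi_cons] at m2
              have hp1 : p1 i d' = 1 := by
                rcases p1_cases i d' with h | h | h <;> omega
              have he1 : e1 i c = 0 := by
                rcases p1_cases i d' with h | h | h <;> omega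
              simp only [List.head?_cons, Option.map_some, Option.some.injEq]
              exact Hen_fo1 hBW4 hi hc hmem.1 (by rw [hck]; exact hmem.2) hp1 he1
        · rw [List.getElem?_eq_none (by rw [LL_length, tl_length hfb]; omega),
            List.getElem?_eq_none (by rw [LL_length, tl_length hb1]; omega)]
      · rw [if_neg hlt, DD, DD]
        rw [phi_cons] at hphi
        have hp1 : p1 i c = 1 := by
          rcases p1_cases i c with h | h | h <;> omega
        have hb0 : phi i b = 0 := by
          rcases p1_cases i c with h | h | h <;> omega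
        congr 2
        apply List.ext_getElem?
        intro r
        rw [List.getElem?_map, List.getElem?_map]
        by_cases hr : r < cs.length
        · obtain ⟨m1, m2, m3, m4, m5⟩ := hBL2 N i r cs b hi hdec' hb1 hr
          have hr' : r < (LL N b).length := by rw [LL_length, tl_length hb1]; exact hr
          have hget : (LL N b)[r]? = some ((LL N b)[r]) := List.getElem?_eq_getElem hr'
          rw [hget] at m1 ⊢
          have hmem := hLL _ (List.getElem_mem hr')
          generalize (LL N b)[r] = d at m1 hmem ⊢
          cases hmv : mv N r b with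
          | nil => rw [hmv] at m1; simp at m1
          | cons d' z =>
            rw [hmv] at m1 m2
            simp only [List.head?_cons, Option.some.injEq] at m1
            subst m1
            rw [phi_cons] at m2
            have hp0 : p1 i d' = 0 := by omega
            simp only [Option.map_some, Option.some.injEq]
            exact Hen_fo2 hBW4 hi hc hmem.1 (by rw [hck]; exact hmem.2) hp0 hp1
        · rw [List.getElem?_eq_none (by rw [LL_length, tl_length hb1]; omega)]
          rfl

theorem st_BL3 (hBW4 : ST_BW4) (hBL1 : ST_BL1) (hBL2 : ST_BL2) : ST_BL3 := by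
  intro N i cs b hi hdec hb
  refine ⟨DD_fo hBW4 hBL1 hBL2 N i hi cs b hdec hb, ?_⟩
  intro h
  obtain ⟨a1, a2, -, -, -, -, a7⟩ := (hBL1 i b).2.2 h
  have := DD_fo hBW4 hBL1 hBL2 N i hi cs (eo i b) hdec (a7 N cs hi hb) (by omega)
  rw [a1] at this
  exact this.symm

end Pool.Agent.Helper8.HL
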