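import Pool.Agent.Helper7.HL.Stmts

/-!
# The crystal operators on lists of columns
-/

namespace Pool.Agent.Helper8.HL

open Finset MvPolynomial
open Pool.Agent.Helper32.HG Pool.Agent.Helper7.HL

theorem mem_tl_cons {N k : ℕ} {cs : List ℕ} {c : Finset ℕ} {b : List (Finset ℕ)} :
    c :: b ∈ tl N (k :: cs) ↔ (c ⊆ range N ∧ c.card = k) ∧ b ∈ tl N cs := by
  simp only [tl, mem_image, mem_product, mem_powersetCard, Prod.exists]
  constructor
  · rintro ⟨a, b', ⟨⟨h1, h2⟩, h3⟩, h4⟩
    rw [List.cons.injEq] at h4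
    obtain ⟨rfl, rfl⟩ := h4
    exact ⟨⟨h1, h2⟩, h3⟩
  · rintro ⟨⟨h1, h2⟩, h3⟩
    exact ⟨c, b, ⟨⟨h1, h2⟩, h3⟩, rfl⟩

theorem mem_tl_iff {N : ℕ} {cs : List ℕ} {b : List (Finset ℕ)} :
    b ∈ tl N cs ↔ List.Forall₂ (fun (c : Finset ℕ) (k : ℕ) => c ⊆ range N ∧ c.card = k) b cs := by
  induction cs generalizing b with
  | nil =>
    simp [tl]
  | cons k cs ih =>
    cases b with
    | nil =>
      simp [tl]
    | cons c b =>
      rw [mem_tl_cons, ih, List.forall₂_cons]

theorem wtc_cons (c : Finset ℕ) (b : List (Finset ℕ)) (i : ℕ) :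
    wtc (c :: b) i = wtc b i + (if i ∈ c then 1 else 0) := by
  unfold wtc
  rw [List.countP_cons]
  simp

/-- `f` on a column -/
def fcol (i : ℕ) (c : Finset ℕ) : Finset ℕ := insert (i + 1) (c.erase i)

/-- `e` on a column -/
def ecol (i : ℕ) (c : Finset ℕ) : Finset ℕ := insert i (c.erase (i + 1))

theorem ecol_fcol {i : ℕ} {c : Finset ℕ} (h1 : i ∈ c) (h2 : i + 1 ∉ c) :
    ecol i (fcol i c) = c := by
  ext x
  simp only [ecol, fcol, mem_insert, mem_erase]
  by_cases hx : x = i
  · subst hx; simp [h1]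
  · by_cases hx' : x = i + 1
    · subst hx'; simp [h2]
    · simp [hx, hx']

theorem fcol_ecol {i : ℕ} {c : Finset ℕ} (h1 : i ∉ c) (h2 : i + 1 ∈ c) :
    fcol i (ecol i c) = c := by
  ext x
  simp only [ecol, fcol, mem_insert, mem_erase]
  by_cases hx : x = i
  · subst hx; simp [h1]
  · by_cases hx' : x = i + 1
    · subst hx'; simp [h2]
    · simp [hx, hx']

theorem card_fcol {i : ℕ} {c : Finset ℕ} (h1 : i ∈ c) (h2 : i + 1 ∉ c) :
    (fcol i c).card = c.card := by
  unfold fcol
  rw [card_insert_of_notMem, card_erase_of_mem h1]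
  · have : 0 < c.card := card_pos.mpr ⟨i, h1⟩
    omega
  · intro h
    exact h2 (mem_of_mem_erase h)

theorem card_ecol {i : ℕ} {c : Finset ℕ} (h1 : i ∉ c) (h2 : i + 1 ∈ c) :
    (ecol i c).card = c.card := by
  unfold ecol
  rw [card_insert_of_notMem, card_erase_of_mem h2]
  · have : 0 < c.card := card_pos.mpr ⟨i + 1, h2⟩
    omega
  · intro h
    exact h1 (mem_of_mem_erase h)

theorem fcol_subset {i N : ℕ} {c : Finset ℕ} (hi : i + 1 < N) (h : c ⊆ range N) :
    fcol i c ⊆ range N := by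
  intro x hx
  rcases mem_insert.mp hx with rfl | hx
  · exact mem_range.mpr hi
  · exact h (mem_of_mem_erase hx)

theorem ecol_subset {i N : ℕ} {c : Finset ℕ} (hi : i + 1 < N) (h : c ⊆ range N) :
    ecol i c ⊆ range N := by
  intro x hx
  rcases mem_insert.mp hx with rfl | hx
  · exact mem_range.mpr (by omega)
  · exact h (mem_of_mem_erase hx)

theorem mem_fcol (i x : ℕ) (c : Finset ℕ) :
    x ∈ fcol i c ↔ x = i + 1 ∨ (x ≠ i ∧ x ∈ c) := by
  simp [fcol]

theorem mem_ecol (i x : ℕ) (c : Finset ℕ) :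
    x ∈ ecol i c ↔ x = i ∨ (x ≠ i + 1 ∧ x ∈ c) := by
  simp [ecol]

theorem p1_fcol (i : ℕ) (c : Finset ℕ) : p1 i (fcol i c) = 0 := by
  simp [p1, mem_fcol]

theorem e1_fcol (i : ℕ) (c : Finset ℕ) : e1 i (fcol i c) = 1 := by
  simp [e1, mem_fcol]

theorem p1_ecol (i : ℕ) (c : Finset ℕ) : p1 i (ecol i c) = 1 := by
  simp [p1, mem_ecol]

theorem e1_ecol (i : ℕ) (c : Finset ℕ) : e1 i (ecol i c) = 0 := by
  simp [e1, mem_ecol]

theorem p1_cases (i : ℕ) (c : Finset ℕ) :
    (p1 i c = 1 ∧ e1 i c = 0 ∧ i ∈ c ∧ i + 1 ∉ c) ∨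
    (p1 i c = 0 ∧ e1 i c = 1 ∧ i ∉ c ∧ i + 1 ∈ c) ∨
    (p1 i c = 0 ∧ e1 i c = 0 ∧ (i ∈ c ↔ i + 1 ∈ c)) := by
  unfold p1 e1
  by_cases h1 : i ∈ c <;> by_cases h2 : i + 1 ∈ c <;> simp [h1, h2]

theorem fo_cons (i : ℕ) (c : Finset ℕ) (b : List (Finset ℕ)) :
    fo i (c :: b) = if e1 i c < phi i b then c :: fo i b else fcol i c :: b := rfl

theorem eo_cons (i : ℕ) (c : Finset ℕ) (b : List (Finset ℕ)) :
    eo i (c :: b) = if e1 i c ≤ phi i b then c :: eo i b else ecol i c :: b := rfl

theorem phi_cons (i : ℕ) (c : Finset ℕ) (b : List (Finset ℕ)) :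
    phi i (c :: b) = p1 i c + (phi i b - e1 i c) := rfl

theorem eps_cons (i : ℕ) (c : Finset ℕ) (b : List (Finset ℕ)) :
    eps i (c :: b) = eps i b + (e1 i c - phi i b) := rfl

theorem st_BL1 : ST_BL1 := by
  intro i b
  induction b with
  | nil =>
    refine ⟨by simp [phi, eps, wtc], ?_, ?_⟩
    · intro h; simp [phi] at h
    · intro h; simp [eps] at h
  | cons c b ih =>
    obtain ⟨ih1, ih2, ih3⟩ := ih
    refine ⟨?_, ?_, ?_⟩
    · rw [phi_cons, eps_cons, wtc_cons, wtc_cons]
      rcases p1_cases i c with ⟨hp, he, h1, h2⟩ | ⟨hp, he, h1, h2⟩ | ⟨hp, he, h⟩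
      · rw [hp, he, if_pos h1, if_neg h2]; omega
      · rw [hp, he, if_neg h1, if_pos h2]; omega
      · rw [hp, he]
        by_cases h1 : i ∈ c
        · rw [if_pos h1, if_pos (h.mp h1)]; omega
        · rw [if_neg h1, if_neg (fun h' => h1 (h.mpr h'))]; omega
    · intro h0
      rw [phi_cons] at h0
      rw [fo_cons]
      by_cases hlt : e1 i c < phi i b
      · rw [if_pos hlt]
        obtain ⟨a1, a2, a3, a4, a5, a6, a7⟩ := ih2 (by omega)
        refine ⟨?_, ?_, ?_, ?_, ?_, ?_, ?_⟩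
        · rw [eo_cons, if_pos (by omega), a1]
        · rw [phi_cons, phi_cons]; omega
        · rw [eps_cons, eps_cons]; omega
        · rw [wtc_cons, wtc_cons]; omega
        · rw [wtc_cons, wtc_cons]; omega
        · intro j hj hj'
          rw [wtc_cons, wtc_cons, a6 j hj hj']
        · intro N cs hi hb
          cases cs with
          | nil => simp [tl] at hb
          | cons k cs =>
            rw [mem_tl_cons] at hb ⊢
            exact ⟨hb.1, a7 N cs hi hb.2⟩
      · rw [if_neg hlt]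
        rcases p1_cases i c with ⟨hp, he, h1, h2⟩ | ⟨hp, he, h1, h2⟩ | ⟨hp, he, h⟩
        · have hb0 : phi i b = 0 := by omega
          refine ⟨?_, ?_, ?_, ?_, ?_, ?_, ?_⟩
          · rw [eo_cons, e1_fcol, if_neg (by omega), ecol_fcol h1 h2]
          · rw [phi_cons, phi_cons, p1_fcol, e1_fcol, hp, he]; omega
          · rw [eps_cons, eps_cons, e1_fcol, he]; omega
          · rw [wtc_cons, wtc_cons, if_pos h1, if_neg (by simp [mem_fcol])]
          · rw [wtc_cons, wtc_cons, if_neg h2, if_pos (by simp [mem_fcol])]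
          · intro j hj hj'
            rw [wtc_cons, wtc_cons]
            simp [mem_fcol, hj, hj']
          · intro N cs hi hb
            cases cs with
            | nil => simp [tl] at hb
            | cons k cs =>
              rw [mem_tl_cons] at hb ⊢
              exact ⟨⟨fcol_subset hi hb.1.1, by rw [card_fcol h1 h2]; exact hb.1.2⟩, hb.2⟩
        · omega
        · omega
    · intro h0
      rw [eps_cons] at h0
      rw [eo_cons]
      by_cases hle : e1 i c ≤ phi i b
      · rw [if_pos hle]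
        obtain ⟨a1, a2, a3, a4, a5, a6, a7⟩ := ih3 (by omega)
        refine ⟨?_, ?_, ?_, ?_, ?_, ?_, ?_⟩
        · rw [fo_cons, if_pos (by omega), a1]
        · rw [phi_cons, phi_cons]; omega
        · rw [eps_cons, eps_cons]; omega
        · rw [wtc_cons, wtc_cons]; omega
        · rw [wtc_cons, wtc_cons]; omega
        · intro j hj hj'
          rw [wtc_cons, wtc_cons, a6 j hj hj']
        · intro N cs hi hb
          cases cs with
          | nil => simp [tl] at hb
          | cons k cs =>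
            rw [mem_tl_cons] at hb ⊢
            exact ⟨hb.1, a7 N cs hi hb.2⟩
      · rw [if_neg hle]
        rcases p1_cases i c with ⟨hp, he, h1, h2⟩ | ⟨hp, he, h1, h2⟩ | ⟨hp, he, h⟩
        · omega
        · have hb0 : phi i b = 0 := by omega
          refine ⟨?_, ?_, ?_, ?_, ?_, ?_, ?_⟩
          · rw [fo_cons, e1_ecol, if_neg (by omega), fcol_ecol h1 h2]
          · rw [phi_cons, phi_cons, p1_ecol, e1_ecol, hp, he]; omega
          · rw [eps_cons, eps_cons, e1_ecol, he]; omega
          · rw [wtc_cons, wtc_cons, if_neg h1, if_pos (by simp [mem_ecol])]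
          · rw [wtc_cons, wtc_cons, if_pos h2, if_neg (by simp [mem_ecol])]
          · intro j hj hj'
            rw [wtc_cons, wtc_cons]
            simp [mem_ecol, hj, hj']
          · intro N cs hi hb
            cases cs with
            | nil => simp [tl] at hb
            | cons k cs =>
              rw [mem_tl_cons] at hb ⊢
              exact ⟨⟨ecol_subset hi hb.1.1, by rw [card_ecol h1 h2]; exact hb.1.2⟩, hb.2⟩
        · omega

end Pool.Agent.Helper8.HL
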